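import Pool.Agent.H8.AV3.Stmts5
import Pool.Agent.H70.AV3.NFO3
import Pool.Agent.H17.AV3.STB

/-!
# Three-descent, stage 3: a form with a good point is the form of a point (SOL3)
-/

set_option autoImplicit false

namespace Pool.AV3

open Polynomial Matrix Pool.AVR

section Field

variable {K : Type} [Field K]

/-- The normal form over a field. -/
theorem SOL.nf (h2 : (2 : K) ≠ 0) (c : Fin 10 → K) (v : Fin 3 → K) (hG : Good c v) :
    ∃ (g : Matrix (Fin 3) (Fin 3) K) (A D E F G : K), Eqv g c (sg A D E F G) ∧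
      (A ≠ 0 ∨ D ≠ 0) := by
  obtain ⟨hG0, ⟨w, hwb⟩, ⟨w', hw'1, hw'2⟩⟩ := hG
  have hl : IsUnit (tder c v w) := isUnit_iff_ne_zero.2 hwb
  have hbas : ∃ u : Fin 3 → K, IsUnit (NFO.cm u v w).det := by
    by_contra hcon
    push Not at hcon
    have m0 : v 1 * w 2 - v 2 * w 1 = 0 := by
      by_contra h1
      apply hcon ![1, 0, 0]
      rw [NFO.cm_det, isUnit_iff_ne_zero]
      simpa using h1
    have m1 : v 2 * w 0 - v 0 * w 2 = 0 := by
      by_contra h1
      apply hcon ![0, 1, 0]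
      rw [NFO.cm_det, isUnit_iff_ne_zero]
      simpa using h1
    have m2 : v 0 * w 1 - v 1 * w 0 = 0 := by
      by_contra h1
      apply hcon ![0, 0, 1]
      rw [NFO.cm_det, isUnit_iff_ne_zero]
      simpa using h1
    have hself : tder c v v = 0 := by
      rw [tder_self, hG0, mul_zero]
    have hv0 : ∀ j, v j = 0 := by
      intro j
      have hp : (v j) • w = (w j) • v := by
        funext i
        simp only [Pi.smul_apply, smul_eq_mul]
        fin_cases j <;> fin_cases i <;> simp only [Fin.zero_eta, Fin.mk_one, Fin.reduceFinMk]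
        · ring
        · linear_combination m2
        · linear_combination (-1 : K) * m1
        · linear_combination (-1 : K) * m2
        · ring
        · linear_combination m0
        · linear_combination m1
        · linear_combination (-1 : K) * m0
        · ring
      have h3 : v j * tder c v w = 0 := by
        rw [← tder_smul_right, hp, tder_smul_right, hself, mul_zero]
      rcases mul_eq_zero.1 h3 with h4 | h4
      · exact h4
      · exact absurd h4 hwb
    apply hwb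
    simp [tder, hv0]
  obtain ⟨u, hdu⟩ := hbas
  obtain ⟨g0, c', hg0, hE0, h3, h6, h7⟩ := NFO.step1 c v w u hG0 hl hdu
  obtain ⟨g1, A, D, E, F, G, hg1, hE1⟩ :=
    NFO.step2 (2 : K)⁻¹ (mul_inv_cancel₀ h2) c' h3 h6 h7
  have hE := hE0.trans hE1
  have hge : (g0 * g1) *ᵥ (e1 : Fin 3 → K) = v := by
    rw [← Matrix.mulVec_mulVec, hg1, hg0]
  refine ⟨g0 * g1, A, D, E, F, G, hE, ?_⟩
  set g := g0 * g1 with hgdef
  have hdet : IsUnit g.det := hE.1
  set z : Fin 3 → K := g⁻¹ *ᵥ w' with hz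
  have hwz : w' = g *ᵥ z := by
    rw [hz, Matrix.mulVec_mulVec, Matrix.mul_nonsing_inv _ hdet, Matrix.one_mulVec]
  rw [← hge, hwz, hE.tder, NF.tder_e1] at hw'1
  have hz2 : z 2 = 0 := by
    rcases mul_eq_zero.1 hw'1 with h5 | h5
    · exact absurd h5 hdet.ne_zero
    · exact neg_eq_zero.1 h5
  have hz3 : z = ![z 0, z 1, 0] := by
    funext i
    fin_cases i <;> simp [hz2]
  rw [hwz, hE.tev, hz3, NF.tev_01] at hw'2
  by_contra hcon
  push Not at hcon
  apply hw'2
  rw [hcon.1, hcon.2]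
  ring

/-- Scaling of the last variable. -/
theorem SOL.scale (A D E F G r : K) (hr : r ≠ 0) :
    Eqv !![1, 0, 0; 0, 1, 0; 0, 0, r] (sg A D E F G)
      (sg (A / r) (D / r) E (F * r) (G * r ^ 2)) := by
  have hd : (!![1, 0, 0; 0, 1, 0; 0, 0, r] : Matrix (Fin 3) (Fin 3) K).det = r := by
    rw [Matrix.det_fin_three]
    simp
  refine ⟨by rw [hd]; exact isUnit_iff_ne_zero.2 hr, ?_⟩
  rw [hd]
  funext i
  fin_cases i <;>
  simp only [sg, tsub, tev, tder, Matrix.cons_val, Matrix.of_apply, Matrix.cons_val',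
    Fin.zero_eta, Fin.mk_one, Fin.reduceFinMk, Pi.smul_apply, smul_eq_mul] <;> field_simp <;> ring

/-- Clearing the coefficient of the cube of the first variable. -/
theorem SOL.clear (h2 : (2 : K) ≠ 0) (D E F G : K) :
    ∃ (g : Matrix (Fin 3) (Fin 3) K) (E' F' G' : K), Eqv g (sg 1 D E F G) (sg 1 0 E' F' G') := by
  have h2i : (2 : K) * (2 : K)⁻¹ = 1 := mul_inv_cancel₀ h2
  generalize (2 : K)⁻¹ = τ at h2i
  have hd : (Up τ 1 (-D)).det = 1 := by
    rw [Up, Matrix.det_fin_three]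
    simp
  generalize hg : Up τ 1 (-D) = g at hd
  have t0 : tsub (sg 1 D E F G) g 0 = 0 := by
    subst hg
    simp only [sg, Up, tsub, tev, tder, Matrix.cons_val, Matrix.of_apply, Matrix.cons_val']
    ring
  have t1 : tsub (sg 1 D E F G) g 1 = 1 := by
    subst hg
    simp only [sg, Up, tsub, tev, tder, Matrix.cons_val, Matrix.of_apply, Matrix.cons_val']
    ring
  have t3 : tsub (sg 1 D E F G) g 3 = 0 := by
    subst hg
    simp only [sg, Up, tsub, tev, tder, Matrix.cons_val, Matrix.of_apply, Matrix.cons_val']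
    ring
  have t4 : tsub (sg 1 D E F G) g 4 = 0 := by
    subst hg
    simp only [sg, Up, tsub, tev, tder, Matrix.cons_val, Matrix.of_apply, Matrix.cons_val']
    ring
  have t6 : tsub (sg 1 D E F G) g 6 = 0 := by
    subst hg
    simp only [sg, Up, tsub, tev, tder, Matrix.cons_val, Matrix.of_apply, Matrix.cons_val']
    ring
  have t7 : tsub (sg 1 D E F G) g 7 = -1 := by
    subst hg
    simp only [sg, Up, tsub, tev, tder, Matrix.cons_val, Matrix.of_apply, Matrix.cons_val']
    ring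
  have t8 : tsub (sg 1 D E F G) g 8 = 0 := by
    subst hg
    simp only [sg, Up, tsub, tev, tder, Matrix.cons_val, Matrix.of_apply, Matrix.cons_val']
    linear_combination (-D ^ 2) * h2i
  generalize ht : tsub (sg 1 D E F G) g = t at *
  refine ⟨g, t 2, t 5, t 9, by rw [hd]; exact isUnit_one, ?_⟩
  rw [hd, one_smul, ht]
  have h := NFO.ext_sg t3 t4 t6 t7 t8
  rw [t0, t1] at h
  exact h

theorem SOL.sgFP (h2 : (2 : K) ≠ 0) (E F G : K) :
    sg 1 0 E F G = FP E (-G) (-E) (-(F * (2 : K)⁻¹)) := by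
  have h2i : (2 : K) * (2 : K)⁻¹ = 1 := mul_inv_cancel₀ h2
  funext i
  fin_cases i <;> simp [sg, FP]
  · linear_combination (-F) * h2i
  · ring

theorem SOL.sgFO (E F G : K) : sg 0 1 E F G = FO E F G := by
  funext i
  fin_cases i <;> simp [sg, FO]

end Field

/-- SOL3: a form with a good point is the form of a point. -/
theorem sol3_thm (hJER : JERStmt) (hDSC : DSCStmt) : SOL3Stmt := by
  intro K _ h2 f c v η hf hJ hG
  have h2i : (2 : K) * (2 : K)⁻¹ = 1 := mul_inv_cancel₀ h2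
  obtain ⟨g, A, D, E, F, G, hE, hAD⟩ := SOL.nf h2 c v hG
  by_cases hA : A = 0
  · have hD : D ≠ 0 := hAD.resolve_left (fun h => h hA)
    have h1 := hE.trans (SOL.scale A D E F G D hD)
    rw [hA, zero_div, div_self hD, SOL.sgFO] at h1
    obtain ⟨η', hη⟩ := hJER K (2 : K)⁻¹ h2i _ _ _ h1
    rw [Jc_FO _ _ _ _ h2i, hJ, sh_sh] at hη
    have h3 := Eqv_FO_sh E (F * D) (G * D ^ 2) (-(η' + η))
    rw [hη, sh_sh, neg_add_cancel, sh_zero] at h3
    exact ⟨.zero, _, (h1.trans h3).symm⟩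
  · have h1 := hE.trans (SOL.scale A D E F G A hA)
    rw [div_self hA] at h1
    obtain ⟨g', E', F', G', h4⟩ := SOL.clear h2 (D / A) E (F * A) (G * A ^ 2)
    have h5 := h1.trans h4
    rw [SOL.sgFP h2] at h5
    obtain ⟨η', hη⟩ := hJER K (2 : K)⁻¹ h2i _ _ _ h5
    have h6 : (-(F' * (2 : K)⁻¹)) ^ 2 = (-E') ^ 3 + E' * (-E') ^ 2 + (-G') * (-E') +
        ((F' * (2 : K)⁻¹) ^ 2 - E' * G') := by ring
    rw [Jc_FP _ _ _ _ _ _ h2i h6, hJ, sh_sh] at hη
    have h7 := Eqv_FP_sh E' (-G') (-E') (-(F' * (2 : K)⁻¹)) (-(η' + η))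
    obtain ⟨a, b, d⟩ := f
    have h8 : sh (-(η' + η)) (E', -G', (F' * (2 : K)⁻¹) ^ 2 - E' * G') = (a, b, d) := by
      rw [hη, sh_sh, neg_add_cancel, sh_zero]
    simp only [sh, Prod.mk.injEq] at h8
    obtain ⟨ha, hb, hd⟩ := h8
    rw [ha, hb] at h7
    have hon : OnC a b d (-E' - -(η' + η)) (-(F' * (2 : K)⁻¹)) := by
      unfold OnC
      rw [← ha, ← hb, ← hd]
      ring
    have hns := Pool.Agent.H17.AV3.nonsing_of_onC h2 (((hDSC K h2 a b d).1).2 hf) hon
    exact ⟨.some _ _ hns, _, (h5.trans h7).symm⟩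

end Pool.AV3
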